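import Pool.Agent.U876.PL.P3
import Pool.Agent.U876.PL.P5
import Pool.Agent.U876.PL.P7
import Pool.Agent.U876.PL.P11
import Pool.Agent.U876.PL.P13
import Pool.Agent.U876.PL.P17
import Pool.Agent.U876.PL.P19
import Pool.Agent.U876.PL.P23
import Pool.Agent.U876.PL.P29
import Pool.Agent.U876.PL.P31
import Pool.Agent.U876.PL.P37
import Pool.Agent.U876.PL.P41
import Pool.Agent.U876.PL.P43
import Pool.Agent.U876.PL.P47
import Pool.Agent.U876.PL.P53
import Pool.Agent.U876.PL.P59
import Pool.Agent.U876.PL.P61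
import Pool.Agent.U876.PL.P67
import Pool.Agent.U876.PL.P71
import Pool.Agent.U876.PL.P73
import Pool.Agent.U876.PL.P79
import Pool.Agent.U876.PL.P83
import Pool.Agent.U876.PL.P89
import Pool.Agent.U876.PL.P97

/-! All the covers. -/
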