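import Mathlib

/-!
# Finite covers for the `p`-adic Littlewood conjecture: the checker

`Good p K α` : there is `q ≥ 1` with `q |q|_p ‖q α‖ < 1 / K`.
`Cov p K X D` : all `α` in `[0, X / D)` are good.
The checker extends the covered interval by one interval around `A / (q p ^ k)` at a time.
-/

set_option autoImplicit false

namespace Pool.Agent.U876.PL

/-- `q |q|_p ‖q α‖ < 1 / K` for some `q ≥ 1`. -/
def Good (p K : ℕ) (α : ℝ) : Prop :=
  ∃ q : ℕ, 1 ≤ q ∧ (q : ℝ) * ((padicNorm p (q : ℚ) : ℚ) : ℝ) *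
    |(q : ℝ) * α - (round ((q : ℝ) * α) : ℝ)| < 1 / K

/-- All `α` in `[0, X / D)` are good. -/
def Cov (p K X D : ℕ) : Prop :=
  0 < D ∧ ∀ α : ℝ, 0 ≤ α → α * D < X → Good p K α

/-- Check a list of codes `(q - 1) * 64 + k` starting at `X / D` and ending at `X' / D'`. -/
def chk (p K X' D' : ℕ) : List ℕ → ℕ → ℕ → Bool
  | [], X, D => and (Nat.beq X X') (Nat.beq D D')
  | e :: l, X, D =>
    chk p K X' D' l
      (Nat.succ (Nat.mul (Nat.mul K (Nat.succ (Nat.div e 64)))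
        (Nat.div (Nat.pred (Nat.add (Nat.mul (Nat.mul (Nat.mul K (Nat.mul (Nat.succ (Nat.div e 64))
          (Nat.succ (Nat.div e 64)))) (Nat.pow p (Nat.mod e 64))) X) D))
          (Nat.mul (Nat.mul K (Nat.succ (Nat.div e 64))) D))))
      (Nat.mul (Nat.mul K (Nat.mul (Nat.succ (Nat.div e 64)) (Nat.succ (Nat.div e 64))))
        (Nat.pow p (Nat.mod e 64)))

theorem padic_pow {p : ℕ} (hp : p.Prime) (k : ℕ) :
    padicNorm p ((p : ℚ) ^ k) = ((p : ℚ) ^ k)⁻¹ := by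
  have := Fact.mk hp
  induction k with
  | zero => simp
  | succ k ih => rw [pow_succ, padicNorm.mul, ih, padicNorm.padicNorm_p_of_prime, mul_inv]

theorem padic_le {p : ℕ} (hp : p.Prime) (q k : ℕ) :
    ((padicNorm p ((q * p ^ k : ℕ) : ℚ) : ℚ) : ℝ) ≤ ((p : ℝ) ^ k)⁻¹ := by
  have := Fact.mk hp
  have h1 : padicNorm p ((q * p ^ k : ℕ) : ℚ) = padicNorm p (q : ℚ) * ((p : ℚ) ^ k)⁻¹ := by
    push_cast
    rw [padicNorm.mul, padic_pow hp]
  have h2 : padicNorm p (q : ℚ) ≤ 1 := padicNorm.of_nat q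
  have h3 : padicNorm p ((q * p ^ k : ℕ) : ℚ) ≤ ((p : ℚ) ^ k)⁻¹ := by
    rw [h1]
    have : (0 : ℚ) ≤ ((p : ℚ) ^ k)⁻¹ := by positivity
    calc padicNorm p (q : ℚ) * ((p : ℚ) ^ k)⁻¹ ≤ 1 * ((p : ℚ) ^ k)⁻¹ :=
          mul_le_mul_of_nonneg_right h2 this
      _ = _ := one_mul _
  have h4 : ((padicNorm p ((q * p ^ k : ℕ) : ℚ) : ℚ) : ℝ) ≤ ((((p : ℚ) ^ k)⁻¹ : ℚ) : ℝ) := by
    exact_mod_cast h3
  simpa using h4

/-- one step -/
theorem step {p K : ℕ} (hp : p.Prime) (hK : 0 < K) {X D : ℕ} (h : Cov p K X D) (q k : ℕ)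
    (hq : 1 ≤ q) :
    Cov p K (K * q * ((K * (q * q) * p ^ k * X + D - 1) / (K * q * D)) + 1)
      (K * (q * q) * p ^ k) := by
  obtain ⟨hD, h⟩ := h
  have hp0 : 0 < p := hp.pos
  have hpk : 0 < p ^ k := pow_pos hp0 k
  refine ⟨by positivity, ?_⟩
  intro α hα0 hα
  by_cases hlt : α * D < X
  · exact h α hα0 hlt
  push Not at hlt
  set A := (K * (q * q) * p ^ k * X + D - 1) / (K * q * D) with hA
  have hA1 : A * (K * q * D) ≤ K * (q * q) * p ^ k * X + D - 1 := Nat.div_mul_le_self _ _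
  have hA2 : A * (K * q * D) < K * (q * q) * p ^ k * X + D := by omega
  have hDR : (0 : ℝ) < D := by exact_mod_cast hD
  have hKR : (0 : ℝ) < K := by exact_mod_cast hK
  have hqR : (0 : ℝ) < q := by exact_mod_cast hq
  have hPR : (0 : ℝ) < (p : ℝ) ^ k := by
    have : (0 : ℝ) < p := by exact_mod_cast hp0
    positivity
  have hA3 : (A : ℝ) * (K * q * D) < K * (q * q) * p ^ k * X + D := by exact_mod_cast hA2
  have hα' : α * (K * (q * q) * p ^ k) < K * q * A + 1 := by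
    have : α * ((K * (q * q) * p ^ k : ℕ) : ℝ) < ((K * q * A + 1 : ℕ) : ℝ) := hα
    push_cast at this
    linarith
  -- lower bound: (K q A - 1) < K q² p^k α
  have hlow : (K : ℝ) * q * A - 1 < α * (K * (q * q) * p ^ k) := by
    have h1 : ((K : ℝ) * q * A - 1) * D < K * (q * q) * p ^ k * X := by nlinarith
    have h2 : (K : ℝ) * (q * q) * p ^ k * X ≤ K * (q * q) * p ^ k * (α * D) :=
      mul_le_mul_of_nonneg_left hlt (by positivity)
    have h3 : ((K : ℝ) * q * A - 1) * D < (α * (K * (q * q) * p ^ k)) * D := by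
      calc ((K : ℝ) * q * A - 1) * D < K * (q * q) * p ^ k * X := h1
        _ ≤ K * (q * q) * p ^ k * (α * D) := h2
        _ = _ := by ring
    exact lt_of_mul_lt_mul_right h3 hDR.le
  refine ⟨q * p ^ k, Nat.one_le_iff_ne_zero.mpr (by positivity), ?_⟩
  have habs : |((q * p ^ k : ℕ) : ℝ) * α - (round (((q * p ^ k : ℕ) : ℝ) * α) : ℝ)| <
      1 / (K * q) := by
    have h1 : |((q * p ^ k : ℕ) : ℝ) * α - (round (((q * p ^ k : ℕ) : ℝ) * α) : ℝ)| ≤
        |((q * p ^ k : ℕ) : ℝ) * α - ((A : ℤ) : ℝ)| := round_le _ _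
    refine lt_of_le_of_lt h1 ?_
    rw [abs_lt]
    push_cast
    constructor
    · have : 0 < (K * q : ℝ) := by positivity
      have h5 : 0 < (α * (K * (q * q) * p ^ k) - (K * q * A - 1)) / (K * q) :=
        div_pos (by linarith) this
      have h6 : (α * (K * (q * q) * p ^ k) - (K * q * A - 1)) / (K * q) =
          (q : ℝ) * p ^ k * α - A + 1 / (K * q) := by
        field_simp
        ring
      rw [h6] at h5
      linarith
    · have : 0 < (K * q : ℝ) := by positivity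
      have h5 : 0 < ((K * q * A + 1) - α * (K * (q * q) * p ^ k)) / (K * q) :=
        div_pos (by linarith) this
      have h6 : ((K * q * A + 1) - α * (K * (q * q) * p ^ k)) / (K * q) =
          1 / (K * q) - ((q : ℝ) * p ^ k * α - A) := by
        field_simp
        ring
      rw [h6] at h5
      linarith
  have hnorm := padic_le hp q k
  have hnorm0 : 0 ≤ ((padicNorm p ((q * p ^ k : ℕ) : ℚ) : ℚ) : ℝ) := by
    exact_mod_cast padicNorm.nonneg _
  have hfac : ((q * p ^ k : ℕ) : ℝ) * ((padicNorm p ((q * p ^ k : ℕ) : ℚ) : ℚ) : ℝ) ≤ q := by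
    calc ((q * p ^ k : ℕ) : ℝ) * ((padicNorm p ((q * p ^ k : ℕ) : ℚ) : ℚ) : ℝ) ≤
        ((q * p ^ k : ℕ) : ℝ) * ((p : ℝ) ^ k)⁻¹ :=
          mul_le_mul_of_nonneg_left hnorm (by positivity)
      _ = q := by push_cast; field_simp
  have hab0 : 0 ≤ |((q * p ^ k : ℕ) : ℝ) * α - (round (((q * p ^ k : ℕ) : ℝ) * α) : ℝ)| :=
    abs_nonneg _
  calc ((q * p ^ k : ℕ) : ℝ) * ((padicNorm p ((q * p ^ k : ℕ) : ℚ) : ℚ) : ℝ) *
        |((q * p ^ k : ℕ) : ℝ) * α - (round (((q * p ^ k : ℕ) : ℝ) * α) : ℝ)|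
      ≤ q * |((q * p ^ k : ℕ) : ℝ) * α - (round (((q * p ^ k : ℕ) : ℝ) * α) : ℝ)| :=
        mul_le_mul_of_nonneg_right hfac hab0
    _ < q * (1 / (K * q)) := mul_lt_mul_of_pos_left habs hqR
    _ = 1 / K := by field_simp

theorem chk_sound {p K : ℕ} (hp : p.Prime) (hK : 0 < K) {X' D' : ℕ} :
    ∀ (l : List ℕ) (X D : ℕ), chk p K X' D' l X D = true → Cov p K X D → Cov p K X' D' := by
  intro l
  induction l with
  | nil =>
    intro X D h hc
    rw [chk, Bool.and_eq_true] at h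
    rw [← Nat.eq_of_beq_eq_true h.1, ← Nat.eq_of_beq_eq_true h.2]
    exact hc
  | cons e l ih =>
    intro X D h hc
    rw [chk] at h
    refine ih _ _ h ?_
    have := step hp hK hc (e / 64 + 1) (e % 64) (by omega)
    exact this

theorem cov_start (p K : ℕ) : Cov p K 0 1 := by
  refine ⟨Nat.one_pos, ?_⟩
  intro α h0 h
  exfalso
  simp only [Nat.cast_zero, Nat.cast_one, mul_one] at h
  linarith

theorem good_add_int {p K : ℕ} {α : ℝ} (n : ℤ) (h : Good p K α) : Good p K (α + n) := by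
  obtain ⟨q, hq, h⟩ := h
  refine ⟨q, hq, ?_⟩
  have h1 : (q : ℝ) * (α + n) = q * α + ((q * n : ℤ) : ℝ) := by push_cast; ring
  rw [h1, round_add_intCast]
  push_cast
  have h2 : (q : ℝ) * α + q * n - ((round ((q : ℝ) * α) : ℝ) + q * n) =
      q * α - round ((q : ℝ) * α) := by ring
  rw [h2]
  exact h

theorem good_neg {p K : ℕ} {α : ℝ} (h : Good p K α) : Good p K (-α) := by
  obtain ⟨q, hq, h⟩ := h
  refine ⟨q, hq, ?_⟩
  refine lt_of_le_of_lt ?_ h
  have h0 : 0 ≤ (q : ℝ) * ((padicNorm p (q : ℚ) : ℚ) : ℝ) := by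
    have : 0 ≤ ((padicNorm p (q : ℚ) : ℚ) : ℝ) := by exact_mod_cast padicNorm.nonneg _
    positivity
  refine mul_le_mul_of_nonneg_left ?_ h0
  have h1 : |(q : ℝ) * (-α) - (round ((q : ℝ) * (-α)) : ℝ)| ≤
      |(q : ℝ) * (-α) - ((-(round ((q : ℝ) * α)) : ℤ) : ℝ)| := round_le _ _
  refine h1.trans (le_of_eq ?_)
  push_cast
  rw [← abs_neg]
  congr 1
  ring

/-- If `[0, X / D)` is covered with `X / D > 1 / 2`, everything is covered. -/
theorem all_good {p K X D : ℕ} (h : Cov p K X D) (h2 : D < 2 * X) (α : ℝ) : Good p K α := by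
  obtain ⟨hD, h⟩ := h
  have hDR : (0 : ℝ) < D := by exact_mod_cast hD
  have h2R : (D : ℝ) < 2 * X := by exact_mod_cast h2
  have key : ∀ β : ℝ, 0 ≤ β → β ≤ 1 / 2 → Good p K β := by
    intro β h0 h1
    refine h β h0 ?_
    have : β * D ≤ 1 / 2 * D := mul_le_mul_of_nonneg_right h1 hDR.le
    linarith
  -- reduce to the distance to the nearest integer
  have h3 : α = (α - round α) + ((round α : ℤ) : ℝ) := by ring
  have h4 : |α - round α| ≤ 1 / 2 := abs_sub_round α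
  rw [h3]
  apply good_add_int
  rcases le_total 0 (α - round α) with h5 | h5
  · exact key _ h5 (by rw [abs_of_nonneg h5] at h4; exact h4)
  · have h6 := key (-(α - round α)) (by linarith) (by rw [abs_of_nonpos h5] at h4; exact h4)
    have h7 := good_neg h6
    rwa [neg_neg] at h7

/-- The form with arbitrarily large `q`. -/
theorem large_good {p K : ℕ} (hp : p.Prime) (h : ∀ α : ℝ, Good p K α) (α : ℝ) (N : ℕ) :
    ∃ q : ℕ, N ≤ q ∧ (q : ℝ) * ((padicNorm p (q : ℚ) : ℚ) : ℝ) *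
      |(q : ℝ) * α - (round ((q : ℝ) * α) : ℝ)| < 1 / K := by
  have := Fact.mk hp
  obtain ⟨q, hq, h1⟩ := h ((p : ℝ) ^ N * α)
  refine ⟨q * p ^ N, ?_, ?_⟩
  · have h2 : N < p ^ N := Nat.lt_pow_self hp.one_lt
    calc N ≤ p ^ N := h2.le
      _ = 1 * p ^ N := (one_mul _).symm
      _ ≤ q * p ^ N := Nat.mul_le_mul_right _ hq
  · have hp0 : (p : ℝ) ≠ 0 := by exact_mod_cast hp.ne_zero
    have h3 : ((padicNorm p ((q * p ^ N : ℕ) : ℚ) : ℚ) : ℝ) =
        ((padicNorm p (q : ℚ) : ℚ) : ℝ) * ((p : ℝ) ^ N)⁻¹ := by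
      have h4 : padicNorm p ((q * p ^ N : ℕ) : ℚ) = padicNorm p (q : ℚ) * ((p : ℚ) ^ N)⁻¹ := by
        push_cast
        rw [padicNorm.mul, padic_pow hp]
      rw [h4]
      push_cast
      ring
    rw [h3]
    have h5 : ((q * p ^ N : ℕ) : ℝ) * α = q * ((p : ℝ) ^ N * α) := by push_cast; ring
    rw [h5]
    have h6 : ((q * p ^ N : ℕ) : ℝ) * (((padicNorm p (q : ℚ) : ℚ) : ℝ) * ((p : ℝ) ^ N)⁻¹) =
        q * ((padicNorm p (q : ℚ) : ℚ) : ℝ) := by
      push_cast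
      field_simp
    rw [h6]
    exact h1

end Pool.Agent.U876.PL
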